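import Mathlib

-- part MP_e86a57_co.HS
section

/-! Horizontal sums of copies of a lattice, with a new bottom and a new top. -/

namespace Pool.Agent.MP_e86a57_co

open Function

/-- Copies of `K` indexed by `ι`, side by side, with a new bottom and a new top. -/
inductive HS (ι K : Type) : Type
  | bot : HS ι K
  | top : HS ι K
  | mid (i : ι) (a : K) : HS ι K

namespace HS

variable {ι K : Type}

/-- The order. -/
def le [LE K] : HS ι K → HS ι K → Prop
  | bot, _ => True
  | top, top => True
  | top, bot => False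
  | top, mid _ _ => False
  | mid _ _, bot => False
  | mid _ _, top => True
  | mid i a, mid j b => i = j ∧ a ≤ b

open Classical in
/-- The join. -/
noncomputable def sup [Max K] : HS ι K → HS ι K → HS ι K
  | bot, y => y
  | top, _ => top
  | mid i a, bot => mid i a
  | mid _ _, top => top
  | mid i a, mid j b => if i = j then mid i (a ⊔ b) else top

open Classical in
/-- The meet. -/
noncomputable def inf [Min K] : HS ι K → HS ι K → HS ι K
  | bot, _ => bot
  | top, y => y
  | mid _ _, bot => bot
  | mid i a, top => mid i a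
  | mid i a, mid j b => if i = j then mid i (a ⊓ b) else bot

noncomputable instance lattice [Lattice K] : Lattice (HS ι K) where
  le := le
  le_refl x := by cases x <;> simp [le]
  le_trans x y z := by
    cases x <;> cases y <;> cases z <;> simp only [le, imp_self, implies_true, false_imp_iff]
    rintro ⟨rfl, h1⟩ ⟨rfl, h2⟩
    exact ⟨rfl, h1.trans h2⟩
  le_antisymm x y := by
    cases x <;> cases y <;> simp only [le, imp_self, implies_true, false_imp_iff]
    rintro ⟨rfl, h1⟩ ⟨_, h2⟩
    rw [le_antisymm h1 h2]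
  sup := sup
  inf := inf
  le_sup_left x y := by
    cases x <;> cases y <;> simp only [le, sup, le_refl, and_self]
    split_ifs <;> simp [le]
  le_sup_right x y := by
    cases x <;> cases y <;> simp only [le, sup, le_refl, and_self]
    split_ifs with h <;> simp [le, h]
  sup_le x y z := by
    cases x <;> cases y <;> cases z <;> simp only [le, sup, imp_self, implies_true, false_imp_iff]
    · intros; assumption
    · split_ifs <;> simp [le]
    · rintro ⟨rfl, h1⟩ ⟨rfl, h2⟩
      simp [le, h1, h2]
  inf_le_left x y := by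
    cases x <;> cases y <;> simp only [le, inf, le_refl, and_self]
    split_ifs <;> simp [le]
  inf_le_right x y := by
    cases x <;> cases y <;> simp only [le, inf, le_refl, and_self]
    split_ifs with h <;> simp [le, h]
  le_inf x y z := by
    cases x <;> cases y <;> cases z <;> simp only [le, inf, imp_self, implies_true, false_imp_iff]
    · intros; assumption
    · rintro ⟨rfl, h1⟩ ⟨rfl, h2⟩
      simp [le, h1, h2]

instance boundedOrder [Lattice K] : BoundedOrder (HS ι K) where
  top := top
  bot := bot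
  le_top x := by cases x <;> trivial
  bot_le x := by cases x <;> trivial

section Lemmas

variable [Lattice K]

theorem bot_eq : (⊥ : HS ι K) = bot := rfl
theorem top_eq : (⊤ : HS ι K) = top := rfl

theorem mid_sup_same (i : ι) (a b : K) : (mid i a ⊔ mid i b : HS ι K) = mid i (a ⊔ b) := by
  change sup _ _ = _
  simp [sup]

theorem mid_inf_same (i : ι) (a b : K) : (mid i a ⊓ mid i b : HS ι K) = mid i (a ⊓ b) := by
  change inf _ _ = _
  simp [inf]

theorem mid_sup_ne {i j : ι} (h : i ≠ j) (a b : K) : (mid i a ⊔ mid j b : HS ι K) = ⊤ := by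
  change sup _ _ = top
  simp [sup, h]

theorem mid_inf_ne {i j : ι} (h : i ≠ j) (a b : K) : (mid i a ⊓ mid j b : HS ι K) = ⊥ := by
  change inf _ _ = bot
  simp [inf, h]

theorem mid_ne_bot (i : ι) (a : K) : (mid i a : HS ι K) ≠ ⊥ := by
  rw [bot_eq]; intro h; cases h

theorem mid_ne_top (i : ι) (a : K) : (mid i a : HS ι K) ≠ ⊤ := by
  rw [top_eq]; intro h; cases h

theorem bot_ne_top' : (⊥ : HS ι K) ≠ ⊤ := by
  rw [top_eq, bot_eq]; intro h; cases h

theorem cases' (x : HS ι K) : x = ⊥ ∨ x = ⊤ ∨ ∃ i a, x = mid i a := by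
  cases x with
  | bot => exact Or.inl rfl
  | top => exact Or.inr (Or.inl rfl)
  | mid i a => exact Or.inr (Or.inr ⟨i, a, rfl⟩)

/-- The equivalence with a sum type, for counting. -/
def equivSum (ι K : Type) : HS ι K ≃ Bool ⊕ (ι × K) where
  toFun
    | bot => Sum.inl false
    | top => Sum.inl true
    | mid i a => Sum.inr (i, a)
  invFun
    | Sum.inl false => bot
    | Sum.inl true => top
    | Sum.inr (i, a) => mid i a
  left_inv x := by cases x <;> rfl
  right_inv x := by rcases x with (_ | _) | ⟨i, a⟩ <;> rfl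

instance finite [Finite ι] [Finite K] : Finite (HS ι K) :=
  Finite.of_equiv _ (equivSum ι K).symm

theorem card_eq [Finite ι] [Finite K] :
    Nat.card (HS ι K) = 2 + Nat.card ι * Nat.card K := by
  rw [Nat.card_congr (equivSum ι K)]
  simp [Nat.card_sum, Nat.card_prod]

/-- The underlying map of the endomorphism given by a map of indices and maps of the copies. -/
def mapFun (σ : ι → ι) (g : ι → K → K) : HS ι K → HS ι K
  | bot => bot
  | top => top
  | mid i a => mid (σ i) (g i a)

/-- The endomorphism given by an injective map of indices and endomorphisms of the copies. -/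
def mkHom (σ : ι → ι) (hσ : Injective σ) (g : ι → LatticeHom K K) :
    BoundedLatticeHom (HS ι K) (HS ι K) where
  toFun := mapFun σ (fun i => g i)
  map_sup' x y := by
    rcases cases' x with rfl | rfl | ⟨i, a, rfl⟩
    · change mapFun σ _ (⊥ ⊔ y) = ⊥ ⊔ _
      simp
    · change mapFun σ _ (⊤ ⊔ y) = ⊤ ⊔ _
      simp only [top_sup_eq]; rfl
    · rcases cases' y with rfl | rfl | ⟨j, b, rfl⟩
      · change mapFun σ _ (_ ⊔ ⊥) = _ ⊔ ⊥
        simp
      · change mapFun σ _ (_ ⊔ ⊤) = _ ⊔ ⊤
        simp only [sup_top_eq]; rfl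
      · by_cases h : i = j
        · subst h
          rw [mid_sup_same]
          simp only [mapFun]
          rw [mid_sup_same, map_sup]
        · rw [mid_sup_ne h]
          simp only [mapFun]
          rw [mid_sup_ne (hσ.ne h)]
          rfl
  map_inf' x y := by
    rcases cases' x with rfl | rfl | ⟨i, a, rfl⟩
    · change mapFun σ _ (⊥ ⊓ y) = ⊥ ⊓ _
      simp only [bot_inf_eq]; rfl
    · change mapFun σ _ (⊤ ⊓ y) = ⊤ ⊓ _
      simp
    · rcases cases' y with rfl | rfl | ⟨j, b, rfl⟩
      · change mapFun σ _ (_ ⊓ ⊥) = _ ⊓ ⊥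
        simp only [inf_bot_eq]; rfl
      · change mapFun σ _ (_ ⊓ ⊤) = _ ⊓ ⊤
        simp
      · by_cases h : i = j
        · subst h
          rw [mid_inf_same]
          simp only [mapFun]
          rw [mid_inf_same, map_inf]
        · rw [mid_inf_ne h]
          simp only [mapFun]
          rw [mid_inf_ne (hσ.ne h)]
          rfl
  map_top' := rfl
  map_bot' := rfl

theorem mkHom_mid (σ : ι → ι) (hσ : Injective σ) (g : ι → LatticeHom K K) (i : ι) (a : K) :
    mkHom σ hσ g (mid i a) = mid (σ i) (g i a) := rfl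

theorem bsup {L : Type} [Lattice L] [BoundedOrder L] (f : BoundedLatticeHom L L) (x y : L) :
    f (x ⊔ y) = f x ⊔ f y := map_sup f x y

theorem binf {L : Type} [Lattice L] [BoundedOrder L] (f : BoundedLatticeHom L L) (x y : L) :
    f (x ⊓ y) = f x ⊓ f y := map_inf f x y

theorem lsup {L : Type} [Lattice L] (f : LatticeHom L L) (x y : L) :
    f (x ⊔ y) = f x ⊔ f y := map_sup f x y

theorem linf {L : Type} [Lattice L] (f : LatticeHom L L) (x y : L) :
    f (x ⊓ y) = f x ⊓ f y := map_inf f x y

/-- Given any index there are two further distinct indices. -/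
def Three (ι : Type) : Prop := ∀ i : ι, ∃ j k : ι, j ≠ i ∧ k ≠ i ∧ j ≠ k

theorem three_fin {n : ℕ} (hn : 3 ≤ n) : Three (Fin n) := by
  intro i
  have h : 2 ≤ (Finset.univ.erase i).card := by
    rw [Finset.card_erase_of_mem (Finset.mem_univ _)]
    simp only [Finset.card_univ, Fintype.card_fin]
    omega
  obtain ⟨j, hj, k, hk, hjk⟩ := Finset.one_lt_card.mp (lt_of_lt_of_le one_lt_two h)
  exact ⟨j, k, Finset.ne_of_mem_erase hj, Finset.ne_of_mem_erase hk, hjk⟩

theorem exists_mid (h3 : Three ι) (f : BoundedLatticeHom (HS ι K) (HS ι K)) (i : ι) (a : K) :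
    ∃ j b, f (mid i a) = mid j b := by
  obtain ⟨j, k, hj, hk, hjk⟩ := h3 i
  rcases cases' (f (mid i a)) with h | h | h
  · exfalso
    have h1 : f (mid j a) = ⊤ := by
      have := bsup f (mid i a) (mid j a)
      rw [mid_sup_ne hj.symm, h, map_top, bot_sup_eq] at this
      exact this.symm
    have h2 : f (mid k a) = ⊤ := by
      have := bsup f (mid i a) (mid k a)
      rw [mid_sup_ne hk.symm, h, map_top, bot_sup_eq] at this
      exact this.symm
    have := binf f (mid j a) (mid k a)
    rw [mid_inf_ne hjk, h1, h2, map_bot, top_inf_eq] at this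
    exact bot_ne_top' this
  · exfalso
    have h1 : f (mid j a) = ⊥ := by
      have := binf f (mid i a) (mid j a)
      rw [mid_inf_ne hj.symm, h, map_bot, top_inf_eq] at this
      exact this.symm
    have h2 : f (mid k a) = ⊥ := by
      have := binf f (mid i a) (mid k a)
      rw [mid_inf_ne hk.symm, h, map_bot, top_inf_eq] at this
      exact this.symm
    have := bsup f (mid j a) (mid k a)
    rw [mid_sup_ne hjk, h1, h2, map_top, bot_sup_eq] at this
    exact bot_ne_top' this.symm
  · exact h

theorem exists_mkHom [Nonempty K] (h3 : Three ι) (f : BoundedLatticeHom (HS ι K) (HS ι K)) :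
    ∃ (σ : ι → ι) (hσ : Injective σ) (g : ι → LatticeHom K K), f = mkHom σ hσ g := by
  choose τ γ hf using exists_mid h3 f
  obtain ⟨a₀⟩ := ‹Nonempty K›
  have hτ : ∀ i a b, τ i a = τ i b := by
    intro i a b
    by_contra hne
    have := binf f (mid i a) (mid i b)
    rw [mid_inf_same, hf, hf, hf, mid_inf_ne hne] at this
    exact mid_ne_bot _ _ this
  have hf' : ∀ i a, f (mid i a) = mid (τ i a₀) (γ i a) := fun i a => by rw [hf, hτ i a a₀]
  have hinj : Injective fun i => τ i a₀ := by
    intro i j hij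
    by_contra hne
    have := binf f (mid i a₀) (mid j a₀)
    simp only at hij
    rw [mid_inf_ne hne, hf', hf', hij, mid_inf_same, map_bot] at this
    exact mid_ne_bot _ _ this.symm
  refine ⟨fun i => τ i a₀, hinj, fun i => ⟨⟨γ i, fun a b => ?_⟩, fun a b => ?_⟩, ?_⟩
  · have := bsup f (mid i a) (mid i b)
    rw [mid_sup_same, hf', hf', hf', mid_sup_same] at this
    injection this
  · have := binf f (mid i a) (mid i b)
    rw [mid_inf_same, hf', hf', hf', mid_inf_same] at this
    injection this
  · ext x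
    rcases cases' x with rfl | rfl | ⟨i, a, rfl⟩
    · rw [map_bot, map_bot]
    · rw [map_top, map_top]
    · rw [hf', mkHom_mid]; rfl

theorem mkHom_bijective_iff (σ : Equiv.Perm ι) (g : ι → LatticeHom K K) :
    Bijective (mkHom σ σ.injective g) ↔ ∀ i, Bijective (g i) := by
  constructor
  · rintro ⟨hi, hs⟩ i
    refine ⟨fun a b hab => ?_, fun b => ?_⟩
    · have : mkHom σ σ.injective g (mid i a) = mkHom σ σ.injective g (mid i b) := by
        rw [mkHom_mid, mkHom_mid, hab]
      have := hi this
      injection this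
    · obtain ⟨x, hx⟩ := hs (mid (σ i) b)
      rcases cases' x with rfl | rfl | ⟨j, a, rfl⟩
      · rw [map_bot] at hx; exact absurd hx.symm (mid_ne_bot _ _)
      · rw [map_top] at hx; exact absurd hx.symm (mid_ne_top _ _)
      · rw [mkHom_mid] at hx
        injection hx with h1 h2
        have := σ.injective h1
        subst this
        exact ⟨a, h2⟩
  · intro h
    refine ⟨fun x y hxy => ?_, fun y => ?_⟩
    · rcases cases' x with rfl | rfl | ⟨i, a, rfl⟩ <;>
        rcases cases' y with rfl | rfl | ⟨j, b, rfl⟩ <;>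
        simp only [map_bot, map_top, mkHom_mid] at hxy
      · rfl
      · exact absurd hxy bot_ne_top'
      · exact absurd hxy.symm (mid_ne_bot _ _)
      · exact absurd hxy.symm bot_ne_top'
      · rfl
      · exact absurd hxy.symm (mid_ne_top _ _)
      · exact absurd hxy (mid_ne_bot _ _)
      · exact absurd hxy (mid_ne_top _ _)
      · injection hxy with h1 h2
        have := σ.injective h1
        subst this
        rw [(h i).1 h2]
    · rcases cases' y with rfl | rfl | ⟨j, b, rfl⟩
      · exact ⟨⊥, map_bot _⟩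
      · exact ⟨⊤, map_top _⟩
      · obtain ⟨a, ha⟩ := (h (σ.symm j)).2 b
        exact ⟨mid (σ.symm j) a, by rw [mkHom_mid, ha, Equiv.apply_symm_apply]⟩

/-- The parametrisation of the bounded endomorphisms. -/
def param (p : Equiv.Perm ι × (ι → LatticeHom K K)) : BoundedLatticeHom (HS ι K) (HS ι K) :=
  mkHom p.1 p.1.injective p.2

theorem param_bijective [Finite ι] [Nonempty K] (h3 : Three ι) :
    Bijective (param : Equiv.Perm ι × (ι → LatticeHom K K) → _) := by
  constructor
  · rintro ⟨σ, g⟩ ⟨τ, h⟩ hp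
    obtain ⟨a₀⟩ := ‹Nonempty K›
    have key : ∀ i a, (mid (σ i) (g i a) : HS ι K) = mid (τ i) (h i a) := fun i a =>
      congrArg (fun f : BoundedLatticeHom (HS ι K) (HS ι K) => f (mid i a)) hp
    refine Prod.ext ?_ ?_
    · ext i
      have := key i a₀
      injection this
    · funext i
      ext a
      have := key i a
      injection this
  · intro f
    obtain ⟨σ, hσ, g, rfl⟩ := exists_mkHom h3 f
    exact ⟨(Equiv.ofBijective σ (Finite.injective_iff_bijective.mp hσ), g), rfl⟩

theorem card_end [Finite ι] [Nonempty K] (h3 : Three ι) :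
    Nat.card (BoundedLatticeHom (HS ι K) (HS ι K)) =
      Nat.card (Equiv.Perm ι) * Nat.card (LatticeHom K K) ^ Nat.card ι := by
  rw [← Nat.card_congr (Equiv.ofBijective _ (param_bijective (K := K) h3)), Nat.card_prod,
    Nat.card_fun]

theorem card_aut [Finite ι] [Nonempty K] (h3 : Three ι) :
    Nat.card {f : BoundedLatticeHom (HS ι K) (HS ι K) // Bijective f} =
      Nat.card (Equiv.Perm ι) * Nat.card {g : LatticeHom K K // Bijective g} ^ Nat.card ι := by
  rw [← Nat.card_fun, ← Nat.card_prod]
  symm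
  refine Nat.card_congr (Equiv.ofBijective
    (fun p => ⟨param (p.1, fun i => (p.2 i).1),
      (mkHom_bijective_iff _ _).2 fun i => (p.2 i).2⟩) ⟨?_, ?_⟩)
  · rintro ⟨σ, g⟩ ⟨τ, h⟩ hp
    have := (param_bijective (K := K) h3).1 (Subtype.ext_iff.1 hp)
    simp only [Prod.mk.injEq] at this
    obtain ⟨h1, h2⟩ := this
    refine Prod.ext h1 (funext fun i => Subtype.ext (congrFun h2 i))
  · rintro ⟨f, hf⟩
    obtain ⟨⟨σ, g⟩, rfl⟩ := (param_bijective (K := K) h3).2 f
    exact ⟨(σ, fun i => ⟨g i, (mkHom_bijective_iff σ g).1 hf i⟩), rfl⟩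

end Lemmas

section Mn

/-- A lattice endomorphism of `M_n` (not assumed to preserve the bounds) is constant or
injective. -/
theorem const_or_injective (h3 : Three ι) (g : LatticeHom (HS ι Unit) (HS ι Unit)) :
    (∀ x, g x = g ⊥) ∨ Injective g := by
  by_cases hbt : g ⊥ = g ⊤
  · left
    intro x
    exact le_antisymm (hbt ▸ OrderHomClass.mono g le_top) (OrderHomClass.mono g bot_le)
  right
  have hb : ∀ i, g (mid i ()) ≠ g ⊥ := by
    intro i h
    obtain ⟨j, k, hj, hk, hjk⟩ := h3 i
    have e : ∀ l, l ≠ i → g (mid l ()) = g ⊤ := by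
      intro l hl
      have := lsup g (mid i ()) (mid l ())
      rw [mid_sup_ne hl.symm, h, ← map_sup, bot_sup_eq] at this
      exact this.symm
    have := linf g (mid j ()) (mid k ())
    rw [mid_inf_ne hjk, e j hj, e k hk, inf_idem] at this
    exact hbt this
  have ht : ∀ i, g (mid i ()) ≠ g ⊤ := by
    intro i h
    obtain ⟨j, k, hj, hk, hjk⟩ := h3 i
    have e : ∀ l, l ≠ i → g (mid l ()) = g ⊥ := by
      intro l hl
      have := linf g (mid i ()) (mid l ())
      rw [mid_inf_ne hl.symm, h, ← map_inf, top_inf_eq] at this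
      exact this.symm
    have := lsup g (mid j ()) (mid k ())
    rw [mid_sup_ne hjk, e j hj, e k hk, sup_idem] at this
    exact hbt this.symm
  intro x y hxy
  rcases cases' x with rfl | rfl | ⟨i, ⟨⟩, rfl⟩ <;>
    rcases cases' y with rfl | rfl | ⟨j, ⟨⟩, rfl⟩
  · rfl
  · exact absurd hxy hbt
  · exact absurd hxy.symm (hb _)
  · exact absurd hxy.symm hbt
  · rfl
  · exact absurd hxy.symm (ht _)
  · exact absurd hxy (hb _)
  · exact absurd hxy (ht _)
  · by_contra hne
    have hij : i ≠ j := fun h => hne (by rw [h])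
    have := linf g (mid i ()) (mid j ())
    rw [mid_inf_ne hij, ← hxy, inf_idem] at this
    exact hb i this.symm

/-- The constant endomorphism. -/
def constHom {L : Type} [Lattice L] (c : L) : LatticeHom L L where
  toFun _ := c
  map_sup' _ _ := (sup_idem c).symm
  map_inf' _ _ := (inf_idem c).symm

instance finiteLatticeHom {L : Type} [Lattice L] [Finite L] : Finite (LatticeHom L L) :=
  Finite.of_injective (fun f : LatticeHom L L => (f : L → L)) DFunLike.coe_injective

theorem card_end_Mn [Finite ι] (h3 : Three ι) :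
    Nat.card (LatticeHom (HS ι Unit) (HS ι Unit)) =
      Nat.card {g : LatticeHom (HS ι Unit) (HS ι Unit) // Bijective g} + (2 + Nat.card ι) := by
  classical
  have e1 := Nat.card_congr
    (Equiv.sumCompl (fun g : LatticeHom (HS ι Unit) (HS ι Unit) => Bijective g))
  rw [← e1, Nat.card_sum]
  congr 1
  have e2 : Nat.card (HS ι Unit) = 2 + Nat.card ι := by rw [card_eq]; simp
  rw [← e2]
  symm
  refine Nat.card_congr (Equiv.ofBijective (fun c => ⟨constHom c, fun h => ?_⟩) ⟨?_, ?_⟩)
  · exact bot_ne_top' (h.1 (rfl : constHom c ⊥ = constHom c ⊤))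
  · intro c d hcd
    exact congrArg (fun f : LatticeHom (HS ι Unit) (HS ι Unit) => f ⊥) (Subtype.ext_iff.1 hcd)
  · rintro ⟨g, hg⟩
    rcases const_or_injective h3 g with h | h
    · refine ⟨g ⊥, Subtype.ext ?_⟩
      ext x
      exact (h x).symm
    · exact absurd (Finite.injective_iff_bijective.mp h) hg

theorem card_perm_le_Mn [Finite ι] :
    Nat.card (Equiv.Perm ι) ≤
      Nat.card {g : LatticeHom (HS ι Unit) (HS ι Unit) // Bijective g} := by
  refine Nat.card_le_card_of_injective
    (fun σ => ⟨(mkHom σ σ.injective (fun _ => LatticeHom.id Unit)).toLatticeHom,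
      (mkHom_bijective_iff σ (fun _ => LatticeHom.id Unit)).2 fun _ => bijective_id⟩) ?_
  intro σ τ h
  ext i
  have := congrArg (fun f : LatticeHom (HS ι Unit) (HS ι Unit) => f (mid i ()))
    (Subtype.ext_iff.1 h)
  change (mid (σ i) () : HS ι Unit) = mid (τ i) () at this
  injection this

end Mn

end HS

end Pool.Agent.MP_e86a57_co

end

-- part MP_e86a57_co.Main
section

/-! Every number of the unit interval is a limit of automorphism-to-endomorphism ratios. -/

namespace Pool.Agent.MP_e86a57_co

open Function Filter Topology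

theorem exists_pow_close {q x ε : ℝ} (hq0 : 0 < q) (hq1 : q < 1) (hx0 : 0 ≤ x) (hx1 : x ≤ 1)
    (hε : 0 < ε) : ∃ t : ℕ, 3 ≤ t ∧ |q ^ t - x| ≤ 1 - q ^ 3 + ε := by
  classical
  have hex : ∃ t : ℕ, q ^ (t + 3) ≤ x + ε := by
    obtain ⟨t, ht⟩ := exists_pow_lt_of_lt_one hε hq1
    refine ⟨t, ?_⟩
    have : q ^ (t + 3) ≤ q ^ t := pow_le_pow_of_le_one hq0.le hq1.le (by omega)
    linarith
  have hq3 : q ^ 3 ≤ q := by
    calc q ^ 3 ≤ q ^ 1 := pow_le_pow_of_le_one hq0.le hq1.le (by omega)
      _ = q := pow_one q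
  refine ⟨Nat.find hex + 3, by omega, ?_⟩
  have h1 := Nat.find_spec hex
  rw [abs_le]
  constructor
  · rcases h : Nat.find hex with _ | s
    · simp only [zero_add]
      linarith
    · have h2 := Nat.find_min hex (show s < Nat.find hex by omega)
      push Not at h2
      have h3 : q ^ (s + 3) ≤ 1 := pow_le_one₀ hq0.le hq1.le
      have h4 : q ^ (s + 1 + 3) = q ^ (s + 3) * q := by ring
      have h5 : q ^ (s + 3) * (1 - q) ≤ 1 - q := by nlinarith
      rw [h4]
      nlinarith
  · linarith

/-- The number of automorphisms of `M_(n+3)`. -/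
noncomputable def aM (n : ℕ) : ℕ :=
  Nat.card {g : LatticeHom (HS (Fin (n + 3)) Unit) (HS (Fin (n + 3)) Unit) // Bijective g}

theorem aM_ge (n : ℕ) : (n + 3).factorial ≤ aM n := by
  have := HS.card_perm_le_Mn (ι := Fin (n + 3))
  rwa [Nat.card_perm, Nat.card_eq_fintype_card, Fintype.card_fin] at this

/-- The automorphism-to-endomorphism ratio of `M_(n+3)` for unbounded endomorphisms. -/
noncomputable def qM (n : ℕ) : ℝ := (aM n : ℝ) / (aM n + (n + 5))

theorem aM_pos (n : ℕ) : (0 : ℝ) < aM n := by
  have := aM_ge n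
  have h2 := Nat.factorial_pos (n + 3)
  exact_mod_cast lt_of_lt_of_le h2 this

theorem qM_pos (n : ℕ) : 0 < qM n := by
  have := aM_pos n
  unfold qM
  positivity

theorem qM_lt_one (n : ℕ) : qM n < 1 := by
  have := aM_pos n
  unfold qM
  rw [div_lt_one (by positivity)]
  have : (0 : ℝ) < n + 5 := by positivity
  linarith

theorem qM_ge (n : ℕ) : 1 - 1 / ((n : ℝ) + 1) ≤ qM n := by
  have h0 := aM_pos n
  have h1 : ((n : ℝ) + 5) * n ≤ aM n := by
    have h2 := aM_ge n
    have h3 : (n + 3) * (n + 2) ≤ (n + 3).factorial := by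
      rw [Nat.factorial_succ]
      exact Nat.mul_le_mul_left _ (Nat.self_le_factorial _)
    have h4 : (n + 5) * n ≤ aM n := by nlinarith
    exact_mod_cast h4
  unfold qM
  rw [le_div_iff₀ (by positivity)]
  have h5 : 1 - 1 / ((n : ℝ) + 1) = n / (n + 1) := by field_simp; ring
  rw [h5, div_mul_eq_mul_div, div_le_iff₀ (by positivity)]
  nlinarith

theorem qM_tendsto : Tendsto qM atTop (𝓝 1) := by
  have h : Tendsto (fun n : ℕ => 1 - 1 / ((n : ℝ) + 1)) atTop (𝓝 1) := by
    simpa using (tendsto_const_nhds (x := (1 : ℝ))).sub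
      (tendsto_one_div_add_atTop_nhds_zero_nat (𝕜 := ℝ))
  exact tendsto_of_tendsto_of_tendsto_of_le_of_le h tendsto_const_nhds qM_ge
    fun n => (qM_lt_one n).le

theorem ratio_eq (n t : ℕ) (ht : 3 ≤ t) :
    (Nat.card {f : BoundedLatticeHom (HS (Fin t) (HS (Fin (n + 3)) Unit))
        (HS (Fin t) (HS (Fin (n + 3)) Unit)) // Bijective f} : ℝ) /
      (Nat.card (BoundedLatticeHom (HS (Fin t) (HS (Fin (n + 3)) Unit))
        (HS (Fin t) (HS (Fin (n + 3)) Unit))) : ℝ) = qM n ^ t := by
  haveI : Nonempty (HS (Fin (n + 3)) Unit) := ⟨HS.bot⟩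
  rw [HS.card_aut (HS.three_fin ht), HS.card_end (HS.three_fin ht),
    HS.card_end_Mn (HS.three_fin (by omega))]
  have hp : (0 : ℝ) < Nat.card (Equiv.Perm (Fin t)) := by exact_mod_cast Nat.card_pos
  simp only [Nat.card_eq_fintype_card (α := Fin _), Fintype.card_fin]
  unfold qM
  rw [div_pow]
  push_cast
  rw [mul_div_mul_left _ _ hp.ne']
  unfold aM
  congr 2
  ring

theorem main (x : ℝ) (hx0 : 0 ≤ x) (hx1 : x ≤ 1) :
    ∃ (L : ℕ → Type) (_ : ∀ k, Lattice (L k)) (_ : ∀ k, BoundedOrder (L k))
      (_ : ∀ k, Finite (L k)),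
      Tendsto (fun k => Nat.card (L k)) atTop atTop ∧
      Tendsto (fun k =>
        (Nat.card {f : BoundedLatticeHom (L k) (L k) // Bijective f} : ℝ) /
          (Nat.card (BoundedLatticeHom (L k) (L k)) : ℝ)) atTop (𝓝 x) := by
  have h := fun n : ℕ => exists_pow_close (qM_pos n) (qM_lt_one n) hx0 hx1
    (show (0 : ℝ) < 1 / ((n : ℝ) + 1) by positivity)
  choose t ht3 ht using h
  refine ⟨fun n => HS (Fin (t n)) (HS (Fin (n + 3)) Unit), fun _ => inferInstance,
    fun _ => inferInstance, fun _ => inferInstance, ?_, ?_⟩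
  · refine tendsto_atTop_mono (fun n => ?_) tendsto_id
    rw [HS.card_eq, HS.card_eq]
    simp only [Nat.card_eq_fintype_card, Fintype.card_fin, Fintype.card_unit, id]
    have := ht3 n
    nlinarith
  · simp only [ratio_eq _ _ (ht3 _)]
    rw [tendsto_iff_norm_sub_tendsto_zero]
    have h2 : Tendsto (fun n : ℕ => 1 - qM n ^ 3 + 1 / ((n : ℝ) + 1)) atTop (𝓝 0) := by
      simpa using ((tendsto_const_nhds (x := (1 : ℝ))).sub (qM_tendsto.pow 3)).add
        (tendsto_one_div_add_atTop_nhds_zero_nat (𝕜 := ℝ))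
    exact squeeze_zero (fun n => norm_nonneg _) (fun n => ht n) h2

theorem ratio_mem {L : Type} [Lattice L] [BoundedOrder L] [Finite L] :
    (Nat.card {f : BoundedLatticeHom L L // Bijective f} : ℝ) /
      (Nat.card (BoundedLatticeHom L L) : ℝ) ∈ Set.Icc (0 : ℝ) 1 := by
  haveI : Finite (BoundedLatticeHom L L) :=
    Finite.of_injective (fun f : BoundedLatticeHom L L => (f : L → L)) DFunLike.coe_injective
  refine ⟨by positivity, div_le_one_of_le₀ ?_ (by positivity)⟩
  exact_mod_cast Nat.card_le_card_of_injective _ Subtype.val_injective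

end Pool.Agent.MP_e86a57_co

end
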